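import Pool.Agent.H187Z.FlameProof

open Pool.Agent.H187Z.Flame

/-- Negative answer to Q1: an acyclic rooted digraph without backward-infinite paths and a set
`I ∈ 𝒢(D)` contained in no flame of `D`. -/
theorem Pool.Agent.Results.MP_6e5fe0_co.Counterexample.result :
    ∃ (V E : Type) (tail head : E → V) (r : V), IsRooted tail head r ∧ Acyclic tail head ∧
      (∀ f : ℕ → E, ¬ IsBackwardInfinitePath tail head f) ∧
      ∃ I : Set E, InG tail head r Set.univ I ∧
        ∀ F : Set E, IsFlame tail head r F → ¬ I ⊆ F :=
  counterexample
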